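import Pool.Agent.R5.HY.Game

/-!
# MP_689627_co: `c_H(G ∨ J) ≤ m(G) + m(J)` fails
-/

namespace Pool.Agent.Results.MP_689627_co.JoinExceeds

open Pool.Agent.R5.HY

/-- The parameter `m(G) = min {c_H(G), Υ(G)}`. -/
noncomputable def mm {V : Type*} (G : SimpleGraph V) : ℕ := min (cH G) (upsilon G)

variable {V W : Type*} {k : ℕ}

/-- The state of the game (observations before the `n`-th positions of the cops and of the robber,
previous vertex of the robber) when the robber uses the rule `f`. -/
noncomputable def rq (G : SimpleGraph V) (S : List (Option V) → Fin k → V)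
    (f : V → (Fin k → V) → (Fin k → V) → V) (v0 : V) : ℕ → (List (Option V) × List (Option V)) × V
  | 0 => (([], []), v0)
  | n + 1 =>
    let s := rq G S f v0 n
    let r := f s.2 (S s.1.1) (S (none :: s.1.2))
    ((obs G (S s.1.1) r :: s.1.2, obs G (S (obs G (S s.1.1) r :: s.1.2)) r ::
        obs G (S s.1.1) r :: s.1.2), r)

/-- If the robber can always stay invisible and avoid the next positions of the cops, he wins. -/
lemma not_HWin_of_invisible {G : SimpleGraph V} [Nonempty V]
    (h : ∀ (r : V) (P Q : Fin k → V), ∃ z, (r = z ∨ G.Adj r z) ∧ (∀ i, G.Adj (P i) z) ∧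
      ∀ i, Q i ≠ z) : ¬ HWin G k := by
  rintro ⟨S, hS⟩
  choose f hf1 hf2 hf3 using h
  obtain ⟨v0⟩ := ‹Nonempty V›
  set r : ℕ → V := fun n => (rq G S f v0 (n + 1)).2 with hr
  have hr' : ∀ n, r n = f (rq G S f v0 n).2 (S (rq G S f v0 n).1.1)
      (S (none :: (rq G S f v0 n).1.2)) := fun n => rfl
  have hpl : ∀ n, play G S r n = (rq G S f v0 n).1 := by
    intro n
    induction n with
    | zero => rfl
    | succ n ih =>
      show (_, _) = _
      rw [ih]
      rfl
  obtain ⟨-, n, i, hcap⟩ := hS r (fun n => by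
    have := hf1 (rq G S f v0 (n + 1)).2 (S (rq G S f v0 (n + 1)).1.1)
      (S (none :: (rq G S f v0 (n + 1)).1.2))
    exact this)
  rw [hpl] at hcap
  have hinv : ∀ i, G.Adj (S (rq G S f v0 n).1.1 i) (r n) := hf2 _ _ _
  rcases hcap with hcap | hcap
  · have := hinv i
    rw [hcap] at this
    exact G.loopless.irrefl _ this
  · have h1 : (play G S r (n + 1)).1 = none :: (rq G S f v0 n).1.2 := by
      show obs G (S (play G S r n).1) (r n) :: (play G S r n).2 = _
      rw [hpl]
      simp only [obs, if_pos hinv]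
    rw [h1] at hcap
    exact hf3 _ _ _ i hcap

/-- Any `≤ 2` vertices have a common neighbour outside any given set of `≤ m` vertices. -/
def Rich (G : SimpleGraph V) (m : ℕ) : Prop :=
  ∀ U : Finset V, U.card ≤ 2 → ∀ F : Finset V, F.card ≤ m → ∃ z, z ∉ F ∧ ∀ u ∈ U, G.Adj u z

lemma card_pre {X Y : Type*} [DecidableEq Y] (hk : k ≤ 4) (Q : Fin k → Y) (g : X → Y)
    (hg : Function.Injective g) :
    ((Finset.univ.image Q).preimage g hg.injOn).card ≤ 4 := by
  classical
  have h1 : (((Finset.univ.image Q).preimage g hg.injOn).image g) ⊆ Finset.univ.image Q := by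
    intro x hx
    simp only [Finset.mem_image, Finset.mem_preimage] at hx
    obtain ⟨a, ha, rfl⟩ := hx
    simpa using ha
  have h2 := Finset.card_le_card h1
  rw [Finset.card_image_of_injective _ hg] at h2
  have h3 := Finset.card_image_le (s := Finset.univ) (f := Q)
  simp only [Finset.card_univ, Fintype.card_fin] at h3
  omega

lemma robber_aux {G : SimpleGraph V} {J : SimpleGraph W} (hG : Rich G 4) (hJ : Rich J 4)
    (hk : k ≤ 4) (r : V) (P Q : Fin k → V ⊕ W) :
    ∃ z, (Sum.inl r = z ∨ (join G J).Adj (Sum.inl r) z) ∧ (∀ i, (join G J).Adj (P i) z) ∧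
      ∀ i, Q i ≠ z := by
  classical
  set A : Finset V := (Finset.univ.image P).preimage Sum.inl (Sum.inl_injective.injOn) with hA
  set B : Finset W := (Finset.univ.image P).preimage Sum.inr (Sum.inr_injective.injOn) with hB
  have hcard : A.card + B.card ≤ k := by
    have h1 : (A.image (Sum.inl : V → V ⊕ W) ∪ B.image (Sum.inr : W → V ⊕ W)) ⊆
        Finset.univ.image P := by
      intro x hx
      simp only [hA, hB, Finset.mem_union, Finset.mem_image, Finset.mem_preimage] at hx
      rcases hx with ⟨a, ha, rfl⟩ | ⟨a, ha, rfl⟩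
      · simpa using ha
      · simpa using ha
    have h2 := Finset.card_le_card h1
    rw [Finset.card_union_of_disjoint, Finset.card_image_of_injective _ Sum.inl_injective,
      Finset.card_image_of_injective _ Sum.inr_injective] at h2
    · have h3 := Finset.card_image_le (s := Finset.univ) (f := P)
      simp only [Finset.card_univ, Fintype.card_fin] at h3
      omega
    · rw [Finset.disjoint_left]
      intro x hx hx'
      simp only [Finset.mem_image] at hx hx'
      obtain ⟨a, -, rfl⟩ := hx
      obtain ⟨b, -, hb⟩ := hx'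
      cases hb
  by_cases hb : B.card ≤ 2
  · obtain ⟨z, hz1, hz2⟩ := hJ B hb ((Finset.univ.image Q).preimage Sum.inr
      (Sum.inr_injective.injOn)) (card_pre hk Q Sum.inr Sum.inr_injective)
    refine ⟨Sum.inr z, Or.inr trivial, ?_, ?_⟩
    · intro i
      rcases hPi : P i with a | b
      · trivial
      · apply hz2
        simp only [hB, Finset.mem_preimage, Finset.mem_image]
        exact ⟨i, Finset.mem_univ _, hPi⟩
    · intro i hi
      apply hz1
      simp only [Finset.mem_preimage, Finset.mem_image]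
      exact ⟨i, Finset.mem_univ _, hi⟩
  · have ha : (insert r A).card ≤ 2 := by
      have := Finset.card_insert_le r A
      omega
    obtain ⟨z, hz1, hz2⟩ := hG (insert r A) ha ((Finset.univ.image Q).preimage Sum.inl
      (Sum.inl_injective.injOn)) (card_pre hk Q Sum.inl Sum.inl_injective)
    refine ⟨Sum.inl z, Or.inr (hz2 r (Finset.mem_insert_self _ _)), ?_, ?_⟩
    · intro i
      rcases hPi : P i with a | b
      · apply hz2
        apply Finset.mem_insert_of_mem
        simp only [hA, Finset.mem_preimage, Finset.mem_image]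
        exact ⟨i, Finset.mem_univ _, hPi⟩
      · trivial
    · intro i hi
      apply hz1
      simp only [Finset.mem_preimage, Finset.mem_image]
      exact ⟨i, Finset.mem_univ _, hi⟩

lemma join_swap {G : SimpleGraph V} {J : SimpleGraph W} (x y : V ⊕ W) :
    (join J G).Adj x.swap y.swap ↔ (join G J).Adj x y := by
  rcases x with a | a <;> rcases y with b | b <;> exact Iff.rfl

/-- At most four cops cannot win on the join of two rich graphs. -/
theorem robber {G : SimpleGraph V} {J : SimpleGraph W} [Nonempty V] (hG : Rich G 4)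
    (hJ : Rich J 4) (hk : k ≤ 4) : ¬ HWin (join G J) k := by
  apply not_HWin_of_invisible
  intro r P Q
  rcases r with r | r
  · exact robber_aux hG hJ hk r P Q
  · obtain ⟨z, h1, h2, h3⟩ := robber_aux hJ hG hk r (fun i => (P i).swap) (fun i => (Q i).swap)
    refine ⟨z.swap, ?_, ?_, ?_⟩
    · rcases h1 with h1 | h1
      · left; rw [← h1]; rfl
      · right
        rw [← join_swap, Sum.swap_swap]
        exact h1
    · intro i
      rw [← join_swap, Sum.swap_swap]
      exact h2 i
    · intro i hi
      apply h3 i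
      rw [hi, Sum.swap_swap]

/-! ### The graph -/

/-- The adjacencies between a vertex (`inl s` is one of the three special vertices `x, y, y'`, and
`inr c` a vertex of the `c`-th class) and the vertices of a class. -/
def T : Fin 3 ⊕ Fin 4 → Fin 4 → Bool
  | Sum.inl 0, c => c != 3
  | Sum.inl 1, c => c == 0 || c == 3
  | Sum.inl 2, c => c == 1 || c == 3
  | Sum.inr c, c' => !((c == 0 && c' == 1) || (c == 1 && c' == 0))

/-- The graph: special vertices `x = inl 0`, `y = inl 1`, `y' = inl 2` and four classes `Y, Y', Z, Z'`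
of seven vertices each. `y` and `y'` are adjacent, `x` is adjacent to `Y ∪ Y' ∪ Z`, `y` to `Y ∪ Z'`
and `y'` to `Y' ∪ Z'`; two vertices of the classes are adjacent unless one is in `Y` and the other
one in `Y'`. -/
def G : SimpleGraph (Fin 3 ⊕ Fin 4 × Fin 7) where
  Adj
    | Sum.inl s, Sum.inl t => s ≠ t ∧ s ≠ 0 ∧ t ≠ 0
    | Sum.inl s, Sum.inr a => T (Sum.inl s) a.1
    | Sum.inr a, Sum.inl s => T (Sum.inl s) a.1
    | Sum.inr a, Sum.inr b => a ≠ b ∧ T (Sum.inr a.1) b.1
  symm := by
    constructor
    rintro (s | a) (t | b) h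
    · exact ⟨h.1.symm, h.2.2, h.2.1⟩
    · exact h
    · exact h
    · refine ⟨h.1.symm, ?_⟩
      have h2 := h.2
      revert h2
      generalize a.1 = c
      generalize b.1 = c'
      revert c c'
      decide
  loopless := by
    constructor
    rintro (s | a) h
    · exact h.1 rfl
    · exact h.1 rfl

/-- The type of a vertex. -/
def ty : Fin 3 ⊕ Fin 4 × Fin 7 → Fin 3 ⊕ Fin 4
  | Sum.inl s => Sum.inl s
  | Sum.inr a => Sum.inr a.1

lemma adj_inr (u : Fin 3 ⊕ Fin 4 × Fin 7) (b : Fin 4 × Fin 7) (hne : u ≠ Sum.inr b) :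
    G.Adj u (Sum.inr b) ↔ T (ty u) b.1 := by
  rcases u with s | a
  · exact Iff.rfl
  · constructor
    · exact fun h => h.2
    · exact fun h => ⟨fun hab => hne (by rw [hab]), h⟩

lemma rich : Rich G 4 := by
  classical
  intro U hU F hF
  -- a class joined to all types occurring in `U`
  obtain ⟨c, hc⟩ : ∃ c, ∀ u ∈ U, T (ty u) c = true := by
    have key : ∀ s t : Fin 3 ⊕ Fin 4, ∃ c, T s c = true ∧ T t c = true := by decide
    interval_cases h : U.card
    · rw [Finset.card_eq_zero] at h
      subst h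
      exact ⟨0, by simp⟩
    · obtain ⟨a, rfl⟩ := Finset.card_eq_one.mp h
      obtain ⟨c, hc1, hc2⟩ := key (ty a) (ty a)
      exact ⟨c, by simpa using hc1⟩
    · obtain ⟨a, b, -, rfl⟩ := Finset.card_eq_two.mp h
      obtain ⟨c, hc1, hc2⟩ := key (ty a) (ty b)
      exact ⟨c, by simp [hc1, hc2]⟩
  obtain ⟨i, hi⟩ : ∃ i : Fin 7, (Sum.inr (c, i) : Fin 3 ⊕ Fin 4 × Fin 7) ∉ F ∪ U := by
    by_contra hcon
    push Not at hcon
    have hsub : (Finset.univ : Finset (Fin 7)).image
        (fun i => (Sum.inr (c, i) : Fin 3 ⊕ Fin 4 × Fin 7)) ⊆ F ∪ U := by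
      intro x hx
      simp only [Finset.mem_image] at hx
      obtain ⟨i, -, rfl⟩ := hx
      exact hcon i
    have h1 := Finset.card_le_card hsub
    rw [Finset.card_image_of_injective] at h1
    · have h2 := Finset.card_union_le F U
      simp only [Finset.card_univ, Fintype.card_fin] at h1
      omega
    · intro a b hab
      simpa using hab
  rw [Finset.mem_union, not_or] at hi
  refine ⟨Sum.inr (c, i), hi.1, ?_⟩
  intro u hu
  rw [adj_inr]
  · exact hc u hu
  · rintro rfl
    exact hi.2 hu

lemma connected : G.Connected := by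
  have : Nonempty (Fin 3 ⊕ Fin 4 × Fin 7) := ⟨Sum.inl 0⟩
  rw [SimpleGraph.connected_iff_exists_forall_reachable]
  refine ⟨Sum.inl 0, fun w => ?_⟩
  classical
  obtain ⟨z, -, hz⟩ := rich {Sum.inl 0, w} Finset.card_le_two ∅ (by simp)
  exact (hz (Sum.inl 0) (by simp)).reachable.trans (hz w (by simp)).symm.reachable

/-! ### Two cops win on `G` -/

instance : DecidableRel G.Adj := fun u v =>
  match u, v with
  | Sum.inl s, Sum.inl t => inferInstanceAs (Decidable (s ≠ t ∧ s ≠ 0 ∧ t ≠ 0))
  | Sum.inl s, Sum.inr a => inferInstanceAs (Decidable (T (Sum.inl s) a.1 = true))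
  | Sum.inr a, Sum.inl s => inferInstanceAs (Decidable (T (Sum.inl s) a.1 = true))
  | Sum.inr a, Sum.inr b => inferInstanceAs (Decidable (a ≠ b ∧ T (Sum.inr a.1) b.1 = true))

/-- The type of the vertices. -/
abbrev X := Fin 3 ⊕ Fin 4 × Fin 7

/-- The special vertex `x`. -/
abbrev x : X := Sum.inl 0
/-- The special vertex `y`. -/
abbrev y : X := Sum.inl 1
/-- The special vertex `y'`. -/
abbrev y' : X := Sum.inl 2

/-- Capture the robber seen at `v` with the cops at `x` and `b`. -/
def cap (b v : X) : Fin 2 → X :=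
  if G.Adj x v then ![v, b] else if G.Adj b v then ![x, v] else ![x, b]

/-- The positions of the cops after the first observation. -/
def p1 : Option X → Fin 2 → X
  | none => ![x, y']
  | some v => cap y v

/-- The positions of the cops after the first and the third observation. -/
def p2 : Option X → Option X → Fin 2 → X
  | none, none => ![x, y']
  | none, some v => cap y' v
  | some v, _ => cap y v

/-- The strategy of the cops, in terms of the observations in chronological order. -/
def SS : List (Option X) → Fin 2 → X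
  | [] => ![x, y]
  | [o] => p1 o
  | [o, _] => p1 o
  | o :: _ :: o' :: _ => p2 o o'

/-- The strategy of the cops. -/
def S (L : List (Option X)) : Fin 2 → X := SS L.reverse

lemma cap_legal (b v : X) (i : Fin 2) : ![x, b] i = cap b v i ∨ G.Adj (![x, b] i) (cap b v i) := by
  unfold cap
  split_ifs with h1 h2
  · fin_cases i
    · exact Or.inr h1
    · exact Or.inl rfl
  · fin_cases i
    · exact Or.inl rfl
    · exact Or.inr h2
  · exact Or.inl rfl

lemma cap_captures (b v : X) (h : G.Adj x v ∨ G.Adj b v) : ∃ i, cap b v i = v := by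
  unfold cap
  split_ifs with h1 h2
  · exact ⟨0, rfl⟩
  · exact ⟨1, rfl⟩
  · exact absurd h (by tauto)

lemma yy' : G.Adj y y' := by decide

lemma dom1 : ∀ v : X, v ≠ x → v ≠ y → G.Adj x v ∨ G.Adj y v := by decide

lemma dom2 : ∀ v : X, v ≠ x → v ≠ y' → G.Adj x v ∨ G.Adj y' v := by decide

set_option maxRecDepth 100000 in
lemma sep : ∀ u v : X, ¬ (G.Adj x u ∧ G.Adj y u ∧ (u = v ∨ G.Adj u v) ∧ G.Adj x v ∧
    G.Adj y' v) := by
  decide

theorem copsWin : HWin G 2 := by
  refine ⟨S, fun r hr => ?_⟩
  set o0 := obs G (S []) (r 0) with ho0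
  have hL1 : (play G S r 1).1 = [o0] := rfl
  set o1 := obs G (S [o0]) (r 0) with ho1
  have hM1 : (play G S r 1).2 = [o1, o0] := rfl
  set o2 := obs G (S [o0]) (r 1) with ho2
  have hL2 : (play G S r 2).1 = [o2, o1, o0] := rfl
  have hstep : ∀ n, 1 ≤ n → ∃ a b, (play G S r (n + 1)).1 = a :: b :: (play G S r n).1 := by
    intro n hn
    obtain ⟨m, rfl⟩ : ∃ m, n = m + 1 := ⟨n - 1, by omega⟩
    exact ⟨_, _, rfl⟩
  have hrev : ∀ n, ∃ tl, (play G S r (n + 2)).1.reverse = o0 :: o1 :: o2 :: tl := by
    intro n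
    induction n with
    | zero => exact ⟨[], by rw [hL2]; rfl⟩
    | succ n ih =>
      obtain ⟨tl, htl⟩ := ih
      obtain ⟨a, b, hab⟩ := hstep (n + 2) (by omega)
      refine ⟨tl ++ [b, a], ?_⟩
      rw [hab, List.reverse_cons, List.reverse_cons, htl]
      simp
  have hp0 : S (play G S r 0).1 = ![x, y] := rfl
  have hp1 : S (play G S r 1).1 = p1 o0 := rfl
  have hp2 : ∀ n, S (play G S r (n + 2)).1 = p2 o0 o2 := by
    intro n
    obtain ⟨tl, htl⟩ := hrev n
    show SS (play G S r (n + 2)).1.reverse = _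
    rw [htl]
    rfl
  have hS0 : S [] = ![x, y] := rfl
  refine ⟨?_, ?_⟩
  · intro n i
    rcases n with _ | _ | n
    · rw [hp0, hp1]
      rcases o0 with _ | v
      · fin_cases i
        · exact Or.inl rfl
        · exact Or.inr yy'
      · exact cap_legal y v i
    · rw [hp1, hp2 0]
      rcases o0 with _ | v
      · rcases o2 with _ | v
        · exact Or.inl rfl
        · exact cap_legal y' v i
      · exact Or.inl rfl
    · rw [hp2 n, hp2 (n + 1)]
      exact Or.inl rfl
  · by_cases hx : r 0 = x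
    · exact ⟨0, 0, Or.inl hx.symm⟩
    by_cases hy : r 0 = y
    · exact ⟨0, 1, Or.inl hy.symm⟩
    by_cases h0 : ∀ i, G.Adj (S [] i) (r 0)
    · have e0 : o0 = none := by rw [ho0, obs, if_pos h0]
      have hq1 : S [o0] = ![x, y'] := by rw [e0]; rfl
      by_cases hx1 : r 1 = x
      · refine ⟨1, 0, Or.inl ?_⟩
        rw [hp1, e0, hx1]; rfl
      by_cases hy1 : r 1 = y'
      · refine ⟨1, 1, Or.inl ?_⟩
        rw [hp1, e0, hy1]; rfl
      have h2 : ¬ ∀ i, G.Adj (S [o0] i) (r 1) := by
        intro h2
        rw [hq1] at h2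
        exact sep (r 0) (r 1) ⟨h0 0, h0 1, hr 0, h2 0, h2 1⟩
      have e2 : o2 = some (r 1) := by rw [ho2, obs, if_neg h2]
      obtain ⟨i, hi⟩ := cap_captures y' (r 1) (dom2 _ hx1 hy1)
      refine ⟨1, i, Or.inr ?_⟩
      rw [hp2 0, e0, e2]
      exact hi
    · have e0 : o0 = some (r 0) := by rw [ho0, obs, if_neg h0]
      obtain ⟨i, hi⟩ := cap_captures y (r 0) (dom1 _ hx hy)
      refine ⟨0, i, Or.inr ?_⟩
      rw [hp1, e0]
      exact hi

/-- There is a finite connected graph `G` with `c_H(G) ≤ 2`, hence `m(G) + m(G) ≤ 4`, but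
`c_H(G ∨ G) ≥ 5`. -/
theorem result : ∃ (V : Type) (_ : Fintype V) (G : SimpleGraph V), G.Connected ∧
    cH G ≤ 2 ∧ 5 ≤ cH (join G G) ∧ mm G + mm G < cH (join G G) := by
  have h1 : cH G ≤ 2 := Nat.sInf_le copsWin
  have h2 : 4 < cH (join G G) := lt_cH (fun k hk => robber rich rich hk)
  refine ⟨_, inferInstance, G, connected, h1, h2, ?_⟩
  have h3 : mm G ≤ cH G := min_le_left _ _
  omega

end Pool.Agent.Results.MP_689627_co.JoinExceeds
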